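import Mathlib
import Pool.Agent.Zk12.HT.Stm
import Pool.Agent.Zk94.HT.EStm

/-!
Project HT, part `S_ELL`, assembly: infinitely 2-divisible points on an elliptic curve over a
finite extension of `ℚ_2`, from `S_E1`, `S_E2`, `S_E3` (helper80).
-/

set_option autoImplicit false
set_option linter.unusedSectionVars false

namespace Pool.Agent.Zk80.HT

open Pool.Agent.Zk12.HT Pool.Agent.Zk94.HT

/-- an infinite sequence of halves of `P` -/
def Dv {G : Type*} [AddCommGroup G] (P : G) : Prop :=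
  ∃ R : ℕ → G, R 0 = P ∧ ∀ j, R (j + 1) + R (j + 1) = R j

theorem Dv.sub {G : Type*} [AddCommGroup G] {P Q : G} (hP : Dv P) (hQ : Dv Q) : Dv (P - Q) := by
  obtain ⟨R, hR0, hR⟩ := hP
  obtain ⟨S, hS0, hS⟩ := hQ
  refine ⟨fun j => R j - S j, by simp only [hR0, hS0], fun j => ?_⟩
  simp only
  rw [← hR j, ← hS j]
  abel

theorem chain_pow {G : Type*} [AddCommGroup G] {R : ℕ → G} (hR : ∀ j, R (j + 1) + R (j + 1) = R j)
    (i d : ℕ) : R i = 2 ^ d • R (i + d) := by
  induction d with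
  | zero => simp
  | succ d ih =>
    rw [ih, ← hR (i + d), pow_succ, mul_smul, two_smul]
    rfl

section

variable {L : Type} [NontriviallyNormedField L] [IsUltrametricDist L] [DecidableEq L] {a b c : L}

theorem Bg.mono {r r' : ℝ} (h : r' ≤ r) {P : (crv a b c).toAffine.Point} (hP : Bg r P) :
    Bg r' P := by
  cases P with
  | zero => trivial
  | some x y hxy => exact h.trans hP

theorem Bg.z (r : ℝ) : Bg r (0 : (crv a b c).toAffine.Point) := trivial

/-- the statement E1 for one curve -/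
structure Sub (a b c : L) (ρ : ℝ) : Prop where
  add : ∀ r, ρ < r → ∀ P Q : (crv a b c).toAffine.Point, Bg r P → Bg r Q → Bg r (P + Q)
  neg : ∀ r, ρ < r → ∀ P : (crv a b c).toAffine.Point, Bg r P → Bg r (-P)
  dbl : ∀ r, ρ < r → ∀ P : (crv a b c).toAffine.Point, Bg r P → Bg (r / ‖(2 : L)‖ ^ 2) (P + P)

variable {ρ : ℝ}

theorem Sub.nsmul (h : Sub a b c ρ) {r : ℝ} (hr : ρ < r) {P : (crv a b c).toAffine.Point}
    (hP : Bg r P) (n : ℕ) : Bg r (n • P) := by
  induction n with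
  | zero => rw [zero_smul]; exact Bg.z r
  | succ n ih => rw [succ_nsmul]; exact h.add r hr _ _ ih hP

theorem Sub.pow (h : Sub a b c ρ) (h2 : 0 < ‖(2 : L)‖) (h2' : ‖(2 : L)‖ < 1) (hρ : 0 ≤ ρ) {r : ℝ}
    (hr : ρ < r) {P : (crv a b c).toAffine.Point} (hP : Bg r P) (n : ℕ) :
    Bg (r / ‖(2 : L)‖ ^ (2 * n)) (2 ^ n • P) := by
  induction n with
  | zero => simpa using hP
  | succ n ih =>
    have hr0 : 0 < r := hρ.trans_lt hr
    have h1 : ρ < r / ‖(2 : L)‖ ^ (2 * n) := by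
      refine hr.trans_le ?_
      rw [le_div_iff₀ (by positivity)]
      have : ‖(2 : L)‖ ^ (2 * n) ≤ 1 := pow_le_one₀ h2.le h2'.le
      nlinarith
    have h3 := h.dbl _ h1 _ ih
    have e1 : (2 ^ n • P + 2 ^ n • P : (crv a b c).toAffine.Point) = 2 ^ (n + 1) • P := by
      rw [pow_succ, mul_comm, mul_smul, two_smul]
    have e2 : r / ‖(2 : L)‖ ^ (2 * n) / ‖(2 : L)‖ ^ 2 = r / ‖(2 : L)‖ ^ (2 * (n + 1)) := by
      rw [div_div, ← pow_add]
      congr 2
    rw [e1, e2] at h3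
    exact h3

/-- infinitely 2-divisible points near the origin are zero -/
theorem zero_of_dv (h : Sub a b c ρ) (h2 : 0 < ‖(2 : L)‖) (h2' : ‖(2 : L)‖ < 1) (hρ : 0 ≤ ρ)
    {r : ℝ} (hr : ρ < r)
    (hE : ∀ T : Set (crv a b c).toAffine.Point, T.Infinite → ∃ P ∈ T, ∃ Q ∈ T, P ≠ Q ∧
      Bg r (P - Q)) {Q : (crv a b c).toAffine.Point} (hQ : Dv Q) (hU : Bg r Q) : Q = 0 := by
  obtain ⟨R, hR0, hR⟩ := hQ
  by_contra hne
  obtain ⟨x, y, hxy, hQx⟩ : ∃ x y hxy, Q = .some x y hxy := by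
    cases hQ : Q with
    | zero => exact absurd hQ hne
    | some x y hxy => exact ⟨x, y, hxy, rfl⟩
  have hr0 : 0 < r := hρ.trans_lt hr
  have hs : r ≤ ‖x‖ := by rw [hQx] at hU; exact hU
  have hs0 : 0 < ‖x‖ := hr0.trans_le hs
  have hsρ : ρ < ‖x‖ := hr.trans_le hs
  -- a large index
  obtain ⟨N, hN⟩ : ∃ N : ℕ, ‖(2 : L)‖ ^ N < r / ‖x‖ := exists_pow_lt_of_lt_one (by positivity) h2'
  -- two indices
  obtain ⟨i, d, hi, hd, hB⟩ : ∃ i d : ℕ, N ≤ i ∧ 0 < d ∧ Bg r (R i - R (i + d)) := by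
    by_cases hinf : (Set.range fun n => R (N + n)).Infinite
    · obtain ⟨P, ⟨n1, h1⟩, P', ⟨n2, h2⟩, hPP, hB⟩ := hE _ hinf
      simp only at h1 h2
      rcases lt_trichotomy n1 n2 with hlt | heq | hlt
      · refine ⟨N + n1, n2 - n1, by omega, by omega, ?_⟩
        rw [show N + n1 + (n2 - n1) = N + n2 by omega, h1, h2]
        exact hB
      · exact absurd (by rw [← h1, ← h2, heq]) hPP
      · refine ⟨N + n2, n1 - n2, by omega, by omega, ?_⟩
        rw [show N + n2 + (n1 - n2) = N + n1 by omega, h1, h2, ← neg_sub]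
        exact h.neg r hr _ hB
    · have hni : ¬ Function.Injective fun n => R (N + n) := fun hinj =>
        hinf (Set.infinite_range_of_injective hinj)
      rw [Function.Injective] at hni
      push Not at hni
      obtain ⟨n1, n2, heq, hne⟩ := hni
      rcases lt_or_gt_of_ne hne with hlt | hlt
      · refine ⟨N + n1, n2 - n1, by omega, by omega, ?_⟩
        rw [show N + n1 + (n2 - n1) = N + n2 by omega, heq, sub_self]
        exact Bg.z r
      · refine ⟨N + n2, n1 - n2, by omega, by omega, ?_⟩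
        rw [show N + n2 + (n1 - n2) = N + n1 by omega, heq, sub_self]
        exact Bg.z r
  -- an odd multiple
  obtain ⟨l, hl⟩ : ∃ l : ℕ, 2 ^ d = 2 * l + 2 := by
    obtain ⟨e, rfl⟩ : ∃ e, d = e + 1 := ⟨d - 1, by omega⟩
    have : 1 ≤ 2 ^ e := Nat.one_le_two_pow
    exact ⟨2 ^ e - 1, by rw [pow_succ]; omega⟩
  have hB' : Bg r ((2 * l + 1) • R (i + d)) := by
    have e1 := chain_pow hR i d
    rw [e1, hl] at hB
    have e2 : ((2 * l + 2) • R (i + d) - R (i + d) : (crv a b c).toAffine.Point) =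
        (2 * l + 1) • R (i + d) := by
      rw [show 2 * l + 2 = (2 * l + 1) + 1 by ring, succ_nsmul, add_sub_cancel_right]
    rw [e2] at hB
    exact hB
  have hQj : Q = 2 ^ (i + d) • R (i + d) := by
    have := chain_pow hR 0 (i + d)
    rw [zero_add, hR0] at this
    exact this
  have hB2 := h.pow h2 h2' hρ hr hB' (i + d)
  have e3 : (2 ^ (i + d) • (2 * l + 1) • R (i + d) : (crv a b c).toAffine.Point) =
      (2 * l + 1) • Q := by
    rw [smul_comm, ← hQj]
  rw [e3] at hB2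
  have hQs : Bg ‖x‖ Q := by
    rw [hQx]
    exact le_refl ‖x‖
  have hB3 := h.dbl _ hsρ _ (h.nsmul hsρ hQs l)
  obtain ⟨s', hs'⟩ : ∃ s', s' = min (r / ‖(2 : L)‖ ^ (2 * (i + d))) (‖x‖ / ‖(2 : L)‖ ^ 2) :=
    ⟨_, rfl⟩
  have hlt : ‖x‖ < s' := by
    rw [hs', lt_min_iff]
    constructor
    · rw [lt_div_iff₀ (by positivity)]
      have h5 : ‖(2 : L)‖ ^ (2 * (i + d)) ≤ ‖(2 : L)‖ ^ N :=
        pow_le_pow_of_le_one h2.le h2'.le (by omega)
      have h6 := h5.trans_lt hN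
      rw [lt_div_iff₀ hs0] at h6
      linarith
    · rw [lt_div_iff₀ (by positivity)]
      have h5 : ‖(2 : L)‖ ^ 2 < 1 := pow_lt_one₀ h2.le h2' (by norm_num)
      nlinarith
  have hρ' : ρ < s' := hsρ.trans hlt
  have hfin := h.add s' hρ' _ _ (Bg.mono (by rw [hs']; exact min_le_left _ _) hB2)
    (h.neg s' hρ' _ (Bg.mono (by rw [hs']; exact min_le_right _ _) hB3))
  have e4 : ((2 * l + 1) • Q + -(l • Q + l • Q) : (crv a b c).toAffine.Point) = Q := by
    rw [succ_nsmul, two_mul, add_nsmul]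
    abel
  rw [e4, hQx] at hfin
  have : s' ≤ ‖x‖ := hfin
  linarith

end

/-- E4 -/
theorem ell (h1 : S_E1) (h2 : S_E2) (h3 : S_E3) : S_ELL := by
  classical
  intro L _ _ _ _ h2L a b c hab hbc hac
  have h20 : (2 : L) ≠ 0 := two_ne_zero
  have h2n : 0 < ‖(2 : L)‖ := norm_pos_iff.2 h20
  obtain ⟨ρ, hρdef⟩ : ∃ ρ, ρ = max ‖a‖ (max ‖b‖ ‖c‖) := ⟨_, rfl⟩
  have hρ0 : 0 ≤ ρ := by rw [hρdef]; exact (norm_nonneg a).trans (le_max_left _ _)
  have hsub : Sub a b c ρ := by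
    refine ⟨fun r hr => ?_, fun r hr => ?_, fun r hr => ?_⟩
    · exact (h1 L a b c hab hbc hac r (by rw [← hρdef]; exact hr)).1
    · exact (h1 L a b c hab hbc hac r (by rw [← hρdef]; exact hr)).2.1
    · exact (h1 L a b c hab hbc hac r (by rw [← hρdef]; exact hr)).2.2 h20
  have hzero : ∀ r, ρ < r → ∀ Q : (crv a b c).toAffine.Point, Dv Q → Bg r Q → Q = 0 :=
    fun r hr Q hQ hU => zero_of_dv hsub h2n h2L hρ0 hr
      (h2 L a b c hab hbc hac r (by rw [← hρdef]; exact hr)) hQ hU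
  have hpt : ∀ X₀ : L, Chain a b c X₀ → ∃ P : (crv a b c).toAffine.Point, Dv P ∧
      ∃ y h, P = .some X₀ y h := by
    rintro X₀ ⟨X, α, β, γ, hX0, hH⟩
    obtain ⟨P, hP, hPX⟩ := h3 L a b c hab hbc hac X α β γ hH
    obtain ⟨y, h, hy⟩ := hPX 0
    refine ⟨P 0, ⟨P, rfl, hP⟩, ?_⟩
    subst hX0
    exact ⟨y, h, hy⟩
  constructor
  · by_contra hinf
    have hinf' : {X₀ : L | Chain a b c X₀}.Infinite := hinf
    choose P hP y h hy using hpt
    let T : Set (crv a b c).toAffine.Point :=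
      Set.range fun X : {X₀ : L | Chain a b c X₀} => P X.1 X.2
    have hinj : Function.Injective fun X : {X₀ : L | Chain a b c X₀} => P X.1 X.2 := by
      intro X Y hXY
      simp only at hXY
      rw [hy X.1 X.2, hy Y.1 Y.2] at hXY
      exact Subtype.ext ((WeierstrassCurve.Affine.Point.some.injEq ..).mp hXY).1
    have hTinf : T.Infinite := by
      have : Infinite {X₀ : L | Chain a b c X₀} := hinf'.to_subtype
      exact Set.infinite_range_of_injective hinj
    obtain ⟨P1, ⟨X, hX⟩, P2, ⟨Y, hY⟩, hne, hB⟩ := h2 L a b c hab hbc hac (ρ + 1)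
      (by rw [← hρdef]; linarith) T hTinf
    apply hne
    have := hzero (ρ + 1) (by linarith) (P1 - P2) (by
      rw [← hX, ← hY]
      exact (hP X.1 X.2).sub (hP Y.1 Y.2)) hB
    exact sub_eq_zero.1 this
  · intro X₀ hX₀
    obtain ⟨P, hP, y, h, hy⟩ := hpt X₀ hX₀
    have hle : ‖X₀‖ ≤ ρ := by
      by_contra hcon
      push Not at hcon
      have h5 := hzero ‖X₀‖ hcon P hP (by
        rw [hy]
        exact le_refl ‖X₀‖)
      rw [hy] at h5
      exact WeierstrassCurve.Affine.Point.some_ne_zero _ h5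
    rw [← hρdef]
    have h6 : ‖(2 : L)‖ ^ 10 ≤ 1 := pow_le_one₀ h2n.le h2L.le
    have := norm_nonneg X₀
    nlinarith

end Pool.Agent.Zk80.HT
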