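import Pool.Agent.Zk12.HT.Stm
import Pool.Agent.N890.KO.KUM
import Pool.Agent.N890.KO.H90
import Pool.Agent.N890.KO.CNT

/-!
Project HT, part K: Kummer classes along a section (helper80).
-/

set_option autoImplicit false

namespace Pool.Agent.Zk80.HT

open Pool.Agent.TH954 Pool.Agent.N890.KO

/-- the action given by a section -/
def kAct {k L Ω B : Type} [Field k] [Field L] [Field Ω] [Field B] [Algebra L Ω] [Algebra k Ω]
    [Algebra k B] (s : GalSection k L Ω B) : (B ≃ₐ[k] B) →* (Ω ≃+* Ω) where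
  toFun τ := (s.s τ : Ω ≃+* Ω)
  map_one' := by
    rw [map_one]
    rfl
  map_mul' a b := by
    rw [map_mul]
    rfl

theorem kAct_apply {k L Ω B : Type} [Field k] [Field L] [Field Ω] [Field B] [Algebra L Ω]
    [Algebra k Ω] [Algebra k B] (s : GalSection k L Ω B) (τ : B ≃ₐ[k] B) (y : Ω) :
    kAct s τ y = s.s τ y := rfl

theorem kAct_act {k L Ω B : Type} [Field k] [Field L] [Field Ω] [Field B]
    [Algebra k L] [Algebra L Ω] [Algebra k Ω] [Algebra k B] [IsScalarTower k L Ω]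
    [IsAlgClosure L Ω] [IsAlgClosure k B] (s : GalSection k L Ω B) :
    Act (s.j : B →+* Ω) (kAct s) where
  eq τ y := s.sec τ y
  cont y := by
    obtain ⟨M, hM, h⟩ := CNT.t_CNT k L Ω B s y
    exact ⟨M, hM, fun τ hτ => h τ hτ⟩

/-- part K -/
theorem kumm : Pool.Agent.Zk12.HT.S_KUMM := by
  intro k F Ω B _ _ _ _ _ _ _ _ _ _ _ _ s N hN
  have c2 : IsAlgClosed Ω := IsAlgClosure.isAlgClosed F
  obtain ⟨h1, h2⟩ := KUM.t_KUM H90.t_H90 k B Ω (s.j : B →+* Ω) (kAct s) (kAct_act s) N hN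
  have hj : ∀ c : k, (s.j : B →+* Ω) (algebraMap k B c) = algebraMap k Ω c := fun c =>
    s.j.commutes c
  constructor
  · intro w hw hfix
    obtain ⟨c, z, hc, hz, hzf, he⟩ := h1 w (fun g => hfix g) hw
    exact ⟨c, z, hc, hz, fun g => hzf g, by rw [he, hj]⟩
  · intro c u hu huN
    exact h2 c u (fun g => hu g) (by rw [huN, hj])

end Pool.Agent.Zk80.HT
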