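import Mathlib
import Pool.Agent.Zk12.HT.Stm

/-!
Project HT, part P2: the norm of a polynomial near a point (helper80).
-/

set_option autoImplicit false

open Polynomial Filter Topology

namespace Pool.Agent.Zk80.HT

theorem norm_near (L : Type) [NormedField L] [IsUltrametricDist L] (P : L[X]) (hP : P ≠ 0) (ρ : L) :
    ∃ κ ε : ℝ, 0 < κ ∧ 0 < ε ∧ ∀ τ : L, 0 < ‖τ - ρ‖ → ‖τ - ρ‖ < ε →
      ‖P.eval τ‖ = ‖τ - ρ‖ ^ P.rootMultiplicity ρ * κ := by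
  obtain ⟨Q, hQ, hQ'⟩ := P.exists_eq_pow_rootMultiplicity_mul_and_not_dvd hP ρ
  have hQ0 : Q.eval ρ ≠ 0 := by
    intro h
    exact hQ' (dvd_iff_isRoot.2 h)
  have hpos : 0 < ‖Q.eval ρ‖ := norm_pos_iff.2 hQ0
  have hc : Continuous fun τ : L => ‖Q.eval τ - Q.eval ρ‖ :=
    (Q.continuous.sub continuous_const).norm
  have h1 : ∀ᶠ τ in 𝓝 ρ, ‖Q.eval τ - Q.eval ρ‖ < ‖Q.eval ρ‖ := by
    have h2 := hc.tendsto ρ
    rw [sub_self, norm_zero] at h2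
    exact h2.eventually_lt_const hpos
  obtain ⟨ε, hε, h3⟩ := Metric.eventually_nhds_iff.1 h1
  refine ⟨‖Q.eval ρ‖, ε, hpos, hε, fun τ _ hτ => ?_⟩
  have h4 := h3 (show dist τ ρ < ε by rw [dist_eq_norm]; exact hτ)
  have h5 : ‖Q.eval τ‖ = ‖Q.eval ρ‖ := by
    have h6 : Q.eval τ = (Q.eval τ - Q.eval ρ) + Q.eval ρ := by ring
    rw [h6, IsUltrametricDist.norm_add_eq_max_of_norm_ne_norm h4.ne]
    exact max_eq_right h4.le
  conv_lhs => rw [hQ]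
  rw [eval_mul, eval_pow, eval_sub, eval_X, eval_C, norm_mul, norm_pow, h5]

/-- part P2 -/
theorem norm : Pool.Agent.Zk12.HT.S_NORM := fun L _ _ P hP ρ => norm_near L P hP ρ

end Pool.Agent.Zk80.HT
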