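import Mathlib
import Pool.Agent.Zk12.HT.Stm2

/-!
# Project HT+, the obstruction over finitely generated fields: statements of the parts

`A = ℚ[t_1, …, t_n]`; `ev i t θ : A[X] →+* R` is the evaluation at `t`, `θ`. The field `k` is the
quotient field of `A[X]/(m)`, and `f ∈ A[X][Y]` is monic in `Y` with the roots `D θ`, `θ ∈ T`.
-/

set_option autoImplicit false
set_option linter.all false

open Polynomial NumberField IsDedekindDomain

namespace Pool.Agent.Zk80.HT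

open Pool.Agent.Zk12.HT

/-- the polynomials in `t_1, …, t_n` over `ℚ` -/
abbrev A (n : ℕ) : Type := MvPolynomial (Fin n) ℚ

/-- the evaluation of polynomials in `t_1, …, t_n` -/
noncomputable def evt {n : ℕ} {R : Type} [CommRing R] (i : ℚ →+* R) (t : Fin n → R) :
    A n →+* R := MvPolynomial.eval₂Hom i t

/-- the evaluation of polynomials in `t_1, …, t_n, X` -/
noncomputable def ev {n : ℕ} {R : Type} [CommRing R] (i : ℚ →+* R) (t : Fin n → R) (θ : R) :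
    (A n)[X] →+* R := Polynomial.eval₂RingHom (evt i t) θ

/-- `k` is the field of fractions of `A[X]/(m)`, by `t` and `θ₀` -/
structure Pres {n : ℕ} {k : Type} [Field k] (i : ℚ →+* k) (t : Fin n → k) (θ₀ : k)
    (m : (A n)[X]) : Prop where
  inj : Function.Injective (evt i t)
  monic : m.Monic
  root : ev i t θ₀ m = 0
  dvd : ∀ P : (A n)[X], ev i t θ₀ P = 0 → m ∣ P
  quot : ∀ c : k, ∃ (P : (A n)[X]) (Q : A n), Q ≠ 0 ∧ c = ev i t θ₀ P / evt i t Q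

/-- **part OH (Hilbert)**: helper80 -/
def S_HILB : Prop := ∀ (k B : Type) [Field k] [CharZero k] [Field B] [Algebra k B]
  [IsAlgClosure k B], (⊤ : IntermediateField ℚ k).FG → ∀ T : Finset B,
  (∀ σ : B ≃ₐ[k] B, ∀ θ ∈ T, σ θ ∈ T) → (∀ θ ∈ T, ∃ σ : B ≃ₐ[k] B, σ θ ≠ θ) →
  ∃ (n : ℕ) (t : Fin n → k) (θ₀ : k) (m : (A n)[X]) (D : A n) (f : (A n)[X][X])
    (a : Fin n → ℚ) (θa : AlgebraicClosure ℚ),
    Pres (Rat.castHom k) t θ₀ m ∧ D ≠ 0 ∧ f.Monic ∧
    f.map ((algebraMap k B).comp (ev (Rat.castHom k) t θ₀)) =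
      ∏ θ ∈ T, (X - C (algebraMap k B (evt (Rat.castHom k) t D) * θ)) ∧
    ev (Rat.castHom _) (fun i => (a i : AlgebraicClosure ℚ)) θa m = 0 ∧
    ev (Rat.castHom _) (fun i => (a i : AlgebraicClosure ℚ)) θa (derivative m) ≠ 0 ∧
    ∀ y ∈ IntermediateField.adjoin ℚ {θa},
      (f.map (ev (Rat.castHom _) (fun i => (a i : AlgebraicClosure ℚ)) θa)).eval y ≠ 0

/-- **part OE**: the embeddings of `k` -/
def S_EMBK : Prop := ∀ (n : ℕ) (k L : Type) [Field k] [Field L] (i : ℚ →+* k) (j : ℚ →+* L)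
  (t : Fin n → k) (θ₀ : k) (m : (A n)[X]), Pres i t θ₀ m → ∀ (τ : Fin n → L) (ρ : L),
  Function.Injective (evt j τ) → ev j τ ρ m = 0 →
  ∃ φ : k →+* L, ∀ P : (A n)[X], φ (ev i t θ₀ P) = ev j τ ρ P

/-- **part OQ**: nonzero elements of `A[X]/(m)` divide nonzero elements of `A` -/
def S_DIVK : Prop := ∀ (n : ℕ) (k : Type) [Field k] (i : ℚ →+* k)
  (t : Fin n → k) (θ₀ : k) (m : (A n)[X]), Pres i t θ₀ m → ∀ P : (A n)[X], ev i t θ₀ P ≠ 0 →
  ∃ (P' : (A n)[X]) (R : A n), R ≠ 0 ∧ m ∣ P * P' - C R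

/-- **part ON (near)**: good points near `(a, θa)`; for the leading coefficient `c₀` take a line
`a + s v` with `(R Q)(a + v) ≠ 0` and `ρ_N ∈ F[s]`, `ρ_N(0) = θa`, `s^N ∣ m(a + s v, ρ_N(s))`, with
`N > ord R(a + s v)`; then `c₀` is the quotient of the leading coefficients of `P(a + s v, ρ_N(s))` and
`Q(a + s v)`. Model: `near` in `Zk78/FG/App2Core.lean` -/
def S_NEARK : Prop := ∀ (n : ℕ) (F : Type) [Field F] [CharZero F] (m : (A n)[X]) (a : Fin n → ℚ)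
  (θa : F), m.Monic → ev (Rat.castHom F) (fun i => (a i : F)) θa m = 0 →
  ev (Rat.castHom F) (fun i => (a i : F)) θa (derivative m) ≠ 0 →
  ∀ (P P' : (A n)[X]) (R Q : A n), R ≠ 0 → Q ≠ 0 → m ∣ P * P' - C R → ∀ l : ℕ, 1 ≤ l →
  ∃ c₀ : F, c₀ ≠ 0 ∧ ∀ (L : Type) [NontriviallyNormedField L] [CompleteSpace L] (j : F →+* L)
    (ε : ℝ), 0 < ε → ∃ (τ : Fin n → L) (ρ u w : L),
      Function.Injective (evt (j.comp (Rat.castHom F)) τ) ∧
      ev (j.comp (Rat.castHom F)) τ ρ m = 0 ∧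
      (∀ i, ‖τ i - j (a i)‖ < ε) ∧ ‖ρ - j θa‖ < ε ∧ ‖u - 1‖ < ε ∧ w ≠ 0 ∧
      ev (j.comp (Rat.castHom F)) τ ρ P / evt (j.comp (Rat.castHom F)) τ Q = j c₀ * u * w ^ l

/-- **part OA (approximation)**, from `S_NEARK`. Model: `app2_core` in `Zk78/FG/App2Core.lean` -/
def S_APPK : Prop := ∀ (n : ℕ) (F : Type) [Field F] [CharZero F] (m : (A n)[X])
  (f : (A n)[X][X]) (a : Fin n → ℚ) (θa : F), m.Monic → f.Monic →
  ev (Rat.castHom F) (fun i => (a i : F)) θa m = 0 →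
  ev (Rat.castHom F) (fun i => (a i : F)) θa (derivative m) ≠ 0 →
  ∀ (β P P' : (A n)[X]) (R Q : A n), R ≠ 0 → Q ≠ 0 → m ∣ P * P' - C R → ∀ l : ℕ, 1 ≤ l →
  ∃ c₀ : F, c₀ ≠ 0 ∧ ∀ (L : Type) [NontriviallyNormedField L] [ProperSpace L] (j : F →+* L),
    (∀ z : L, (f.map (j.comp (ev (Rat.castHom F) (fun i => (a i : F)) θa))).eval
      (j (ev (Rat.castHom F) (fun i => (a i : F)) θa β) + j c₀ * z ^ l) ≠ 0) →
    ∃ (τ : Fin n → L) (ρ : L), Function.Injective (evt (j.comp (Rat.castHom F)) τ) ∧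
      ev (j.comp (Rat.castHom F)) τ ρ m = 0 ∧ ∀ z : L,
      (f.map (ev (j.comp (Rat.castHom F)) τ ρ)).eval
        (ev (j.comp (Rat.castHom F)) τ ρ β + ev (j.comp (Rat.castHom F)) τ ρ P /
          evt (j.comp (Rat.castHom F)) τ Q * z ^ l) ≠ 0

/-- **part OL**: the completions are proper normed fields -/
def S_PROP : Prop := ∀ (F : Type) [Field F] [NumberField F] (w : HeightOneSpectrum (𝓞 F)),
  ∃ (L : Type) (_ : NontriviallyNormedField L) (_ : ProperSpace L),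
    Nonempty (w.adicCompletion F ≃+* L)

/-- **part OG (glue)** -/
def S_GLUE : Prop := S_HILB → S_EMBK → S_DIVK → S_APPK → S_PROP → S_OBSF

end Pool.Agent.Zk80.HT
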