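import Mathlib
import Pool.Agent.H391R2.HitSpec

/-!
# Hilbert irreducibility: primes with full decomposition group over rational points
-/

set_option autoImplicit false
set_option linter.all false

open Polynomial Pointwise

namespace Pool.Agent.Zk80.HT

attribute [local instance] Ideal.Quotient.field in
/-- elements fixed by the decomposition group have residues in the small residue field -/
theorem res_of_fixed {A O G : Type} [CommRing A] [CommRing O] [Algebra A O] [Group G] [Finite G]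
    [MulSemiringAction G O] [SMulCommClass G A O] [Algebra.IsInvariant A O G]
    (p : Ideal A) (Q : Ideal O) [p.IsMaximal] [Q.IsMaximal] [Q.LiesOver p] [CharZero (A ⧸ p)] (x : O)
    (hx : ∀ g ∈ MulAction.stabilizer G Q, g • x = x) :
    ∃ a : A, Ideal.Quotient.mk Q x = Ideal.Quotient.mk Q (algebraMap A O a) := by
  haveI : Normal (A ⧸ p) (O ⧸ Q) := Ideal.Quotient.normal G p Q
  haveI : Algebra.IsAlgebraic (A ⧸ p) (O ⧸ Q) := Normal.toIsAlgebraic
  haveI : IsGalois (A ⧸ p) (O ⧸ Q) := { }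
  have h1 : Ideal.Quotient.mk Q x ∈ (⊥ : IntermediateField (A ⧸ p) (O ⧸ Q)) := by
    rw [InfiniteGalois.mem_bot_iff_fixed]
    intro f
    obtain ⟨g, rfl⟩ := Ideal.Quotient.stabilizerHom_surjective G p Q f
    rw [Ideal.Quotient.stabilizerHom_apply]
    congr 1
    exact hx g.1 g.2
  obtain ⟨y, hy⟩ := IntermediateField.mem_bot.1 h1
  obtain ⟨a, rfl⟩ := Ideal.Quotient.mk_surjective y
  exact ⟨a, by rw [← hy]; rfl⟩

/-- **Hilbert irreducibility, Galois form** -/
theorem gal_hit (n : ℕ) (O G : Type) [CommRing O] [IsDomain O] [Algebra (MvPolynomial (Fin n) ℚ) O]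
    [Group G] [Finite G] [MulSemiringAction G O] [SMulCommClass G (MvPolynomial (Fin n) ℚ) O]
    [Algebra.IsInvariant (MvPolynomial (Fin n) ℚ) O G]
    (hinj : Function.Injective (algebraMap (MvPolynomial (Fin n) ℚ) O))
    (hH : ∀ H : Subgroup G, H ≠ ⊤ → ∃ x : O, (∀ h ∈ H, h • x = x) ∧ ∃ g : G, g • x ≠ x)
    (D : MvPolynomial (Fin n) ℚ) (hD : D ≠ 0) :
    ∃ (φ : MvPolynomial (Fin n) ℚ →+* ℚ) (ψ : O →+* AlgebraicClosure ℚ), φ D ≠ 0 ∧
      (∀ x, ψ (algebraMap (MvPolynomial (Fin n) ℚ) O x) = algebraMap ℚ (AlgebraicClosure ℚ) (φ x)) ∧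
      ∀ (g : G) (x : O), ψ x = 0 → ψ (g • x) = 0 := by
  classical
  cases nonempty_fintype G
  -- the polynomials
  have h1 : ∀ H : Subgroup G, ∃ f : (MvPolynomial (Fin n) ℚ)[X], f.Monic ∧ (∀ a : (MvPolynomial (Fin n) ℚ), f.eval a ≠ 0) ∧
      (H ≠ ⊤ → ∃ x : O, (∀ h ∈ H, h • x = x) ∧ (f.map (algebraMap (MvPolynomial (Fin n) ℚ) O)).eval x = 0) := by
    intro H
    by_cases hHt : H = ⊤
    · exact ⟨1, monic_one, fun a => by rw [eval_one]; exact one_ne_zero, fun h => absurd hHt h⟩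
    obtain ⟨x, hx, g0, hg0⟩ := hH H hHt
    obtain ⟨f, hf1, -, hf2⟩ := lifts_and_natDegree_eq_and_monic
      (Algebra.IsInvariant.charpoly_mem_lifts (MvPolynomial (Fin n) ℚ) O G x) (MulSemiringAction.monic_charpoly G x)
    refine ⟨f, hf2, fun a ha => ?_, fun _ => ⟨x, hx, ?_⟩⟩
    · have h2 : (f.map (algebraMap (MvPolynomial (Fin n) ℚ) O)).eval (algebraMap (MvPolynomial (Fin n) ℚ) O a) = 0 := by
        rw [eval_map_apply, ha, map_zero]
      rw [hf1, MulSemiringAction.charpoly_eq, eval_prod, Finset.prod_eq_zero_iff] at h2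
      obtain ⟨g, -, hg⟩ := h2
      rw [eval_sub, eval_X, eval_C, sub_eq_zero] at hg
      have h3 : x = algebraMap (MvPolynomial (Fin n) ℚ) O a := by
        have h4 := congrArg (fun z => g⁻¹ • z) hg
        simp only [inv_smul_smul, smul_algebraMap] at h4
        exact h4.symm
      apply hg0
      rw [h3, smul_algebraMap]
    · rw [hf1]
      exact MulSemiringAction.eval_charpoly G x
  choose f hfm hfr hfx using h1
  set F : (MvPolynomial (Fin n) ℚ)[X] := ∏ H : Subgroup G, f H with hF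
  have hFm : F.Monic := monic_prod_of_monic _ _ fun H _ => hfm H
  have hFr : ∀ a : (MvPolynomial (Fin n) ℚ), F.eval a ≠ 0 := by
    intro a
    rw [hF, eval_prod]
    exact Finset.prod_ne_zero_iff.2 fun H _ => hfr H a
  obtain ⟨φ, hφD, hφ⟩ := Pool.Agent.H391R2.sp_mvPolynomial (Fin n) F hFm hFr D hD
  have hφs : Function.Surjective φ := by
    intro q
    refine ⟨algebraMap ℚ (MvPolynomial (Fin n) ℚ) q, ?_⟩
    exact RingHom.congr_fun (Subsingleton.elim (φ.comp (algebraMap ℚ (MvPolynomial (Fin n) ℚ))) (RingHom.id ℚ)) q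
  set p : Ideal (MvPolynomial (Fin n) ℚ) := RingHom.ker φ with hp
  haveI hpm : p.IsMaximal := RingHom.ker_isMaximal_of_surjective φ hφs
  haveI : FaithfulSMul (MvPolynomial (Fin n) ℚ) O := (faithfulSMul_iff_algebraMap_injective (MvPolynomial (Fin n) ℚ) O).2 hinj
  haveI hint : Algebra.IsIntegral (MvPolynomial (Fin n) ℚ) O := Algebra.IsInvariant.isIntegral (MvPolynomial (Fin n) ℚ) O G
  obtain ⟨Q, hQm, hQp⟩ := Ideal.exists_maximal_ideal_liesOver_of_isIntegral (S := O) p
  haveI hC0 : CharZero ((MvPolynomial (Fin n) ℚ) ⧸ p) := by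
    have h2 : Function.Injective ((algebraMap ℚ ((MvPolynomial (Fin n) ℚ) ⧸ p))) := (algebraMap ℚ ((MvPolynomial (Fin n) ℚ) ⧸ p)).injective
    exact charZero_of_injective_algebraMap h2
  have hpQ : ∀ a : (MvPolynomial (Fin n) ℚ), φ a = 0 → algebraMap (MvPolynomial (Fin n) ℚ) O a ∈ Q := by
    intro a ha
    have h2 : a ∈ Q.comap (algebraMap (MvPolynomial (Fin n) ℚ) O) := by
      have h3 : p = Q.comap (algebraMap (MvPolynomial (Fin n) ℚ) O) := hQp.over
      rw [← h3]
      exact ha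
    exact h2
  have hpQ' : ∀ a : (MvPolynomial (Fin n) ℚ), Ideal.Quotient.mk Q (algebraMap (MvPolynomial (Fin n) ℚ) O a) =
      Ideal.Quotient.mk Q (algebraMap (MvPolynomial (Fin n) ℚ) O (algebraMap ℚ (MvPolynomial (Fin n) ℚ) (φ a))) := by
    intro a
    rw [Ideal.Quotient.eq, ← map_sub]
    apply hpQ
    rw [map_sub, sub_eq_zero]
    exact (RingHom.congr_fun (Subsingleton.elim (φ.comp (algebraMap ℚ (MvPolynomial (Fin n) ℚ))) (RingHom.id ℚ)) (φ a)).symm
  -- the stabiliser
  have hst : MulAction.stabilizer G Q = ⊤ := by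
    by_contra hne
    obtain ⟨x, hx, hx0⟩ := hfx _ hne
    obtain ⟨a, ha⟩ := res_of_fixed p Q x hx
    rw [hpQ' a] at ha
    have h2 : ((F.map φ)).eval (φ a) = 0 := by
      have h3 : (f (MulAction.stabilizer G Q)) ∣ F := Finset.dvd_prod_of_mem _ (Finset.mem_univ _)
      obtain ⟨F', hF'⟩ := h3
      rw [hF', Polynomial.map_mul, eval_mul]
      have h4 : ((f (MulAction.stabilizer G Q)).map φ).eval (φ a) = 0 := by
        -- transport to the residue field
        letI i1 := Ideal.Quotient.field Q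
        have hinj2 : Function.Injective
            ((Ideal.Quotient.mk Q).comp ((algebraMap (MvPolynomial (Fin n) ℚ) O).comp (algebraMap ℚ (MvPolynomial (Fin n) ℚ)))) :=
          RingHom.injective _
        apply hinj2
        rw [map_zero, ← eval_map_apply, Polynomial.map_map]
        have h5 : ((Ideal.Quotient.mk Q).comp ((algebraMap (MvPolynomial (Fin n) ℚ) O).comp (algebraMap ℚ (MvPolynomial (Fin n) ℚ)))).comp φ =
            (Ideal.Quotient.mk Q).comp (algebraMap (MvPolynomial (Fin n) ℚ) O) := by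
          refine RingHom.ext fun b => ?_
          exact (hpQ' b).symm
        rw [h5, ← Polynomial.map_map]
        have h6 : ((Ideal.Quotient.mk Q).comp ((algebraMap (MvPolynomial (Fin n) ℚ) O).comp (algebraMap ℚ (MvPolynomial (Fin n) ℚ)))) (φ a) =
            Ideal.Quotient.mk Q x := ha.symm
        rw [h6, eval_map_apply, hx0, map_zero]
      rw [h4, zero_mul]
    exact hφ _ h2
  -- the embedding of the residue field
  letI i1 := Ideal.Quotient.field Q
  letI i2 : Algebra ℚ (O ⧸ Q) :=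
    ((Ideal.Quotient.mk Q).comp ((algebraMap (MvPolynomial (Fin n) ℚ) O).comp (algebraMap ℚ (MvPolynomial (Fin n) ℚ)))).toAlgebra
  haveI i3 : Algebra.IsAlgebraic ℚ (O ⧸ Q) := by
    refine ⟨fun y => ?_⟩
    obtain ⟨x, rfl⟩ := Ideal.Quotient.mk_surjective y
    obtain ⟨g, hgm, hg⟩ := Algebra.IsIntegral.isIntegral (R := (MvPolynomial (Fin n) ℚ)) x
    refine ⟨g.map φ, (hgm.map φ).ne_zero, ?_⟩
    rw [aeval_def, eval₂_map]
    have h5 : (algebraMap ℚ (O ⧸ Q)).comp φ = (Ideal.Quotient.mk Q).comp (algebraMap (MvPolynomial (Fin n) ℚ) O) := by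
      refine RingHom.ext fun b => ?_
      exact (hpQ' b).symm
    rw [h5, ← hom_eval₂, hg, map_zero]
  let e : (O ⧸ Q) →ₐ[ℚ] AlgebraicClosure ℚ := IsAlgClosed.lift
  refine ⟨φ, (e : (O ⧸ Q) →+* AlgebraicClosure ℚ).comp (Ideal.Quotient.mk Q), hφD, fun x => ?_,
    fun g x hx => ?_⟩
  · change e (Ideal.Quotient.mk Q (algebraMap (MvPolynomial (Fin n) ℚ) O x)) = _
    rw [hpQ' x]
    exact e.commutes (φ x)
  · have h2 : Ideal.Quotient.mk Q x = 0 := by
      apply (e : (O ⧸ Q) →+* AlgebraicClosure ℚ).injective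
      rw [map_zero]
      exact hx
    have h3 : g • x ∈ Q := by
      have h4 : g ∈ MulAction.stabilizer G Q := by rw [hst]; exact Subgroup.mem_top g
      have h5 : g • Q = Q := h4
      rw [← h5]
      exact Ideal.smul_mem_pointwise_smul g x Q (Ideal.Quotient.eq_zero_iff_mem.1 h2)
    change e (Ideal.Quotient.mk Q (g • x)) = 0
    rw [Ideal.Quotient.eq_zero_iff_mem.2 h3, map_zero]

end Pool.Agent.Zk80.HT
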