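import Mathlib
import Pool.Agent.Zk80.HT.GalHit

/-!
# Hilbert irreducibility for integral elements of an algebraic closure
-/

set_option autoImplicit false
set_option linter.all false

open Polynomial

namespace Pool.Agent.Zk80.HT

/-- elements of the integral closure which are fixed by a proper subgroup -/
theorem exists_fixed {A K L : Type} [CommRing A] [IsDomain A] [Field K] [Field L] [Algebra A K]
    [IsFractionRing A K] [Algebra K L] [Algebra A L] [IsScalarTower A K L] [FiniteDimensional K L]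
    [IsGalois K L] (H : Subgroup (L ≃ₐ[K] L)) (hH : H ≠ ⊤) :
    ∃ x : integralClosure A L, (∀ h ∈ H, h • x = x) ∧ ∃ g : L ≃ₐ[K] L, g • x ≠ x := by
  have h1 : IntermediateField.fixedField H ≠ ⊥ := by
    intro h
    apply hH
    have h2 := IntermediateField.fixingSubgroup_fixedField H
    rw [h, IntermediateField.fixingSubgroup_bot] at h2
    exact h2.symm
  obtain ⟨x, hx, hx0⟩ : ∃ x ∈ IntermediateField.fixedField H, x ∉ (⊥ : IntermediateField K L) := by
    by_contra hcon
    push Not at hcon
    exact h1 (le_antisymm hcon bot_le)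
  obtain ⟨g, hg⟩ : ∃ g : L ≃ₐ[K] L, g x ≠ x := by
    by_contra hcon
    push Not at hcon
    exact hx0 ((InfiniteGalois.mem_bot_iff_fixed x).2 hcon)
  have h3 : IsAlgebraic A x :=
    (IsFractionRing.isAlgebraic_iff A K L).2 (Algebra.IsAlgebraic.isAlgebraic x)
  obtain ⟨y, hy0, hy⟩ := h3.exists_integral_multiple
  have hyL : algebraMap A L y ≠ 0 := by
    rw [IsScalarTower.algebraMap_apply A K L]
    exact (_root_.map_ne_zero _).2 ((map_ne_zero_iff _ (IsFractionRing.injective A K)).2 hy0)
  have h4 : ∀ s : L ≃ₐ[K] L, s (y • x) = y • s x := by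
    intro s
    rw [Algebra.smul_def, Algebra.smul_def, map_mul, IsScalarTower.algebraMap_apply A K L,
      s.commutes]
  refine ⟨⟨y • x, hy⟩, fun h hh => ?_, g, fun h5 => ?_⟩
  · apply Subtype.ext
    rw [integralClosure.coe_smul]
    change h (y • x) = y • x
    rw [h4]
    congr 1
    exact hx ⟨h, hh⟩
  · have h6 := congrArg Subtype.val h5
    rw [integralClosure.coe_smul] at h6
    change g (y • x) = y • x at h6
    rw [h4, Algebra.smul_def, Algebra.smul_def] at h6
    exact hg (mul_left_cancel₀ hyL h6)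

/-- **Hilbert irreducibility for the algebraic closure** -/
theorem hit_B (n : ℕ) (K B : Type) [Field K] [Field B] [CharZero K]
    [Algebra (MvPolynomial (Fin n) ℚ) K] [IsFractionRing (MvPolynomial (Fin n) ℚ) K] [Algebra K B]
    [Algebra (MvPolynomial (Fin n) ℚ) B] [IsScalarTower (MvPolynomial (Fin n) ℚ) K B]
    [IsAlgClosure K B] (S : Finset B) (hS : ∀ x ∈ S, IsIntegral (MvPolynomial (Fin n) ℚ) x) :
    ∃ (φ : MvPolynomial (Fin n) ℚ →+* ℚ) (O : Subalgebra (MvPolynomial (Fin n) ℚ) B)
      (ψ : O →+* AlgebraicClosure ℚ), (∀ x ∈ S, x ∈ O) ∧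
      (∀ x, ψ (algebraMap (MvPolynomial (Fin n) ℚ) O x) =
        algebraMap ℚ (AlgebraicClosure ℚ) (φ x)) ∧
      (∀ x : O, (x : B) ∈ S → (x : B) ≠ 0 → ψ x ≠ 0) ∧
      ∀ (σ : B ≃ₐ[K] B) (x : O), ∃ y : O, (y : B) = σ x ∧ (ψ x = 0 → ψ y = 0) := by
  classical
  haveI : Algebra.IsAlgebraic K B := IsAlgClosure.isAlgebraic
  haveI : IsAlgClosed B := IsAlgClosure.isAlgClosed K
  haveI : Normal K B := IsAlgClosure.normal K B
  haveI : IsGalois K B := { }
  -- the finite Galois extension
  let E : IntermediateField K B := IntermediateField.adjoin K (S : Set B)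
  haveI : FiniteDimensional K E := by
    apply IntermediateField.finiteDimensional_adjoin
    intro x hx
    exact (Algebra.IsAlgebraic.isAlgebraic x).isIntegral
  let L : IntermediateField K B := IntermediateField.normalClosure K E B
  haveI : FiniteDimensional K L := normalClosure.is_finiteDimensional K E B
  haveI : IsGalois K L := IsGalois.normalClosure K E B
  have hEL : E ≤ L := E.le_normalClosure
  have hSL : ∀ x ∈ S, x ∈ L := fun x hx => hEL (IntermediateField.subset_adjoin K _ hx)
  haveI : IsScalarTower (MvPolynomial (Fin n) ℚ) K L := inferInstance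
  haveI : IsScalarTower (MvPolynomial (Fin n) ℚ) L B := IsScalarTower.of_algebraMap_eq fun x => by
    rw [IsScalarTower.algebraMap_apply (MvPolynomial (Fin n) ℚ) K B,
      IsScalarTower.algebraMap_apply (MvPolynomial (Fin n) ℚ) K L]
    rfl
  have hinjB : Function.Injective (algebraMap (MvPolynomial (Fin n) ℚ) B) := by
    rw [IsScalarTower.algebraMap_eq (MvPolynomial (Fin n) ℚ) K B]
    exact (algebraMap K B).injective.comp (IsFractionRing.injective _ K)
  have hinjL : Function.Injective (algebraMap (MvPolynomial (Fin n) ℚ) L) := by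
    rw [IsScalarTower.algebraMap_eq (MvPolynomial (Fin n) ℚ) K L]
    exact (algebraMap K L).injective.comp (IsFractionRing.injective _ K)
  let O := integralClosure (MvPolynomial (Fin n) ℚ) L
  have hinjO : Function.Injective (algebraMap (MvPolynomial (Fin n) ℚ) O) := by
    intro x y hxy
    apply hinjL
    exact congrArg Subtype.val hxy
  haveI hinv : Algebra.IsInvariant (MvPolynomial (Fin n) ℚ) O (L ≃ₐ[K] L) := by
    refine ⟨fun b hb => ?_⟩
    have h1 : (b : L) ∈ (⊥ : IntermediateField K L) := by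
      rw [InfiniteGalois.mem_bot_iff_fixed]
      intro g
      have h2 := congrArg Subtype.val (hb g)
      rw [integralClosure.coe_smul] at h2
      exact h2
    obtain ⟨c, hc⟩ := IntermediateField.mem_bot.1 h1
    have h3 : IsIntegral (MvPolynomial (Fin n) ℚ) c := by
      rw [← isIntegral_algebraMap_iff (algebraMap K L).injective, hc]
      exact b.2
    obtain ⟨a, ha⟩ := IsIntegrallyClosed.isIntegral_iff.1 h3
    refine ⟨a, Subtype.ext ?_⟩
    rw [← hc, ← ha, ← IsScalarTower.algebraMap_apply]
    rfl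
  -- the multiples
  have hR : ∀ x : B, ∃ R : MvPolynomial (Fin n) ℚ, R ≠ 0 ∧ (x ∈ S → x ≠ 0 →
      ∃ z z' : O, ((z : L) : B) = x ∧ z * z' = algebraMap _ _ R) := by
    intro x
    by_cases hx : x ∈ S ∧ x ≠ 0
    · obtain ⟨hxS, hx0⟩ := hx
      have h1 : IsIntegral (MvPolynomial (Fin n) ℚ) (⟨x, hSL x hxS⟩ : L) := by
        have h2 := hS x hxS
        have h3 : (algebraMap L B) ⟨x, hSL x hxS⟩ = x := rfl
        rw [← h3] at h2
        exact (isIntegral_algebraMap_iff (algebraMap L B).injective).1 h2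
      let z : O := ⟨⟨x, hSL x hxS⟩, h1⟩
      have hz : z ∈ nonZeroDivisors O := by
        rw [mem_nonZeroDivisors_iff_ne_zero]
        intro h
        apply hx0
        exact congrArg (fun w : O => ((w : L) : B)) h
      have h4 : IsAlgebraic (MvPolynomial (Fin n) ℚ) z := by
        haveI : Algebra.IsIntegral (MvPolynomial (Fin n) ℚ) O := inferInstance
        exact (Algebra.IsIntegral.isIntegral z).isAlgebraic
      obtain ⟨R, hR0, z', hz'⟩ := h4.exists_nonzero_dvd hz
      exact ⟨R, hR0, fun _ _ => ⟨z, z', rfl, hz'.symm⟩⟩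
    · exact ⟨1, one_ne_zero, fun h1 h2 => absurd ⟨h1, h2⟩ hx⟩
  choose R hR0 hR1 using hR
  obtain ⟨φ, ψ, hφ, hψ, hst⟩ := gal_hit n O (L ≃ₐ[K] L) hinjO
    (fun H hH => exists_fixed H hH) (∏ x ∈ S, R x) (Finset.prod_ne_zero_iff.2 fun x _ => hR0 x)
  rw [map_prod, Finset.prod_ne_zero_iff] at hφ
  -- the subring of `B`
  let iL : L →ₐ[MvPolynomial (Fin n) ℚ] B := (IsScalarTower.toAlgHom (MvPolynomial (Fin n) ℚ) L B)
  have hiL : Function.Injective iL := (algebraMap L B).injective
  let e := Subalgebra.equivMapOfInjective O iL hiL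
  have he : ∀ z : O, ((e z : (O.map iL)) : B) = ((z : L) : B) := fun z => rfl
  have he' : ∀ x : O.map iL, ((((e.symm x : O) : L)) : B) = x := by
    intro x
    rw [← he, e.apply_symm_apply]
  refine ⟨φ, O.map iL, ψ.comp (e.symm : _ →+* O), fun x hx => ?_, fun x => ?_, fun x hx hx0 h => ?_,
    fun σ x => ?_⟩
  · have h1 : IsIntegral (MvPolynomial (Fin n) ℚ) (⟨x, hSL x hx⟩ : L) := by
      have h2 := hS x hx
      have h3 : (algebraMap L B) ⟨x, hSL x hx⟩ = x := rfl
      rw [← h3] at h2
      exact (isIntegral_algebraMap_iff (algebraMap L B).injective).1 h2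
    exact ⟨⟨x, hSL x hx⟩, h1, rfl⟩
  · rw [← hψ x]
    change ψ (e.symm (algebraMap _ _ x)) = _
    rw [e.symm.commutes]
  · obtain ⟨z, z', hz, hzz⟩ := hR1 x hx hx0
    have h1 : e.symm x = z := by
      apply Subtype.ext
      apply Subtype.ext
      rw [he', hz]
    have h2 : ψ z = 0 := by
      rw [← h1]
      exact h
    have h3 := congrArg ψ hzz
    rw [map_mul, h2, zero_mul, hψ] at h3
    exact hφ _ hx ((_root_.map_eq_zero _).1 h3.symm)
  · let s : L ≃ₐ[K] L := AlgEquiv.restrictNormal σ L
    refine ⟨e (s • e.symm x), ?_, fun h => ?_⟩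
    · rw [he, integralClosure.coe_smul]
      change ((s ((e.symm x : O) : L) : L) : B) = _
      have h1 := AlgEquiv.restrictNormal_commutes σ L ((e.symm x : O) : L)
      change ((s ((e.symm x : O) : L) : L) : B) = σ (((e.symm x : O) : L) : B) at h1
      rw [h1, he']
    · change ψ (e.symm (e (s • e.symm x))) = 0
      rw [e.symm_apply_apply]
      exact hst s _ h

end Pool.Agent.Zk80.HT
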