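import Mathlib
import Pool.Agent.Zk80.HT.ObStm

/-!
# Finitely generated fields of characteristic zero
-/

set_option autoImplicit false
set_option linter.all false

open Polynomial

namespace Pool.Agent.Zk80.HT

/-- a finitely generated field is finite over a field of rational functions -/
theorem exists_base (k : Type) [Field k] [CharZero k] (h : (⊤ : IntermediateField ℚ k).FG) :
    ∃ (n : ℕ) (t : Fin n → k) (K : Type) (_ : Field K) (_ : CharZero K) (_ : Algebra (A n) K)
      (_ : IsFractionRing (A n) K) (_ : Algebra K k), FiniteDimensional K k ∧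
      ∀ P : A n, algebraMap K k (algebraMap (A n) K P) = evt (Rat.castHom k) t P := by
  classical
  haveI : Algebra.EssFiniteType ℚ k := by
    rw [← IntermediateField.fg_top_iff]
    exact h
  obtain ⟨s, hs⟩ := h
  haveI : Algebra.IsAlgebraic (Algebra.adjoin ℚ (s : Set k)) k := by
    rw [← IntermediateField.isAlgebraic_adjoin_iff_top, hs, Algebra.isAlgebraic_iff_isIntegral]
    refine Algebra.isIntegral_of_surjective IntermediateField.topEquiv.surjective
  obtain ⟨b, hbs, hb⟩ := exists_isTranscendenceBasis_subset (R := ℚ) (s : Set k)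
  have hbf : b.Finite := s.finite_toSet.subset hbs
  haveI : Fintype b := hbf.fintype
  let e : Fin (Fintype.card b) ≃ b := (Fintype.equivFin b).symm
  set n := Fintype.card b with hn
  let t : Fin n → k := fun i => (e i : k)
  have ht : IsTranscendenceBasis ℚ t := (isTranscendenceBasis_equiv' (R := ℚ) e rfl).2 hb
  have hti : AlgebraicIndependent ℚ t := ht.1
  let K := IntermediateField.adjoin ℚ (Set.range t)
  let t' : Fin n → K := fun i => ⟨t i, IntermediateField.subset_adjoin ℚ _ ⟨i, rfl⟩⟩
  letI a1 : Algebra (A n) K := (evt (Rat.castHom K) t').toAlgebra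
  have hcomp : ∀ P : A n, algebraMap K k (algebraMap (A n) K P) = evt (Rat.castHom k) t P := by
    intro P
    have h1 : (algebraMap K k).comp (evt (Rat.castHom K) t') = evt (Rat.castHom k) t := by
      apply MvPolynomial.ringHom_ext
      · intro r
        exact RingHom.congr_fun (Subsingleton.elim (((algebraMap K k).comp
          (evt (Rat.castHom K) t')).comp MvPolynomial.C)
          ((evt (Rat.castHom k) t).comp MvPolynomial.C)) r
      · intro i
        simp only [RingHom.comp_apply, evt, MvPolynomial.coe_eval₂Hom, MvPolynomial.eval₂_X]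
        rfl
    exact RingHom.congr_fun h1 P
  have haev : ∀ P : A n, evt (Rat.castHom k) t P = MvPolynomial.aeval t P := by
    intro P
    have h1 : evt (Rat.castHom k) t = (MvPolynomial.aeval t : A n →ₐ[ℚ] k).toRingHom := by
      apply MvPolynomial.ringHom_ext
      · intro r
        exact RingHom.congr_fun (Subsingleton.elim ((evt (Rat.castHom k) t).comp MvPolynomial.C)
          (((MvPolynomial.aeval t : A n →ₐ[ℚ] k).toRingHom).comp MvPolynomial.C)) r
      · intro i
        simp [evt]
    exact RingHom.congr_fun h1 P
  haveI f1 : FaithfulSMul (A n) K := by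
    rw [faithfulSMul_iff_algebraMap_injective]
    intro x y hxy
    apply hti
    have h1 := congrArg (algebraMap K k) hxy
    rw [hcomp, hcomp, haev, haev] at h1
    exact h1
  haveI f2 : IsFractionRing (A n) K := by
    refine IsFractionRing.of_field _ _ fun c => ?_
    obtain ⟨P, Q, h⟩ := (IntermediateField.mem_adjoin_range_iff ℚ t (c : k)).1 c.2
    refine ⟨P, Q, ?_⟩
    apply (algebraMap K k).injective
    rw [map_div₀, hcomp, hcomp, haev, haev]
    exact h
  have f3 : FiniteDimensional K k := by
    apply +allowSynthFailures Algebra.finite_of_essFiniteType_of_isAlgebraic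
    · exact .of_comp ℚ _ _
    · exact ht.isAlgebraic_field
  exact ⟨n, t, K, inferInstance, inferInstance, a1, f2, inferInstance, f3, hcomp⟩

/-- a finitely generated field is the field of fractions of `A[X]/(m)` -/
theorem exists_pres (n : ℕ) (k K : Type) [Field k] [CharZero k] [Field K] [CharZero K]
    [Algebra (A n) K] [IsFractionRing (A n) K] [Algebra K k] [FiniteDimensional K k]
    (t : Fin n → k) (ht : ∀ P : A n, algebraMap K k (algebraMap (A n) K P) =
      evt (Rat.castHom k) t P) :
    ∃ (θ₀ : k) (m : (A n)[X]), Pres (Rat.castHom k) t θ₀ m := by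
  classical
  letI a1 : Algebra (A n) k := (evt (Rat.castHom k) t).toAlgebra
  haveI : IsScalarTower (A n) K k := IsScalarTower.of_algebraMap_eq fun P => (ht P).symm
  obtain ⟨θ, hθ⟩ := Field.exists_primitive_element K k
  have h3 : IsAlgebraic (A n) θ :=
    (IsFractionRing.isAlgebraic_iff (A n) K k).2 (Algebra.IsAlgebraic.isAlgebraic θ)
  obtain ⟨y, hy0, hy⟩ := h3.exists_integral_multiple
  have hyK : algebraMap (A n) K y ≠ 0 := (map_ne_zero_iff _ (IsFractionRing.injective (A n) K)).2 hy0
  set θ₀ : k := y • θ with hθ₀
  have hgen : IntermediateField.adjoin K {θ₀} = ⊤ := by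
    rw [eq_top_iff, ← hθ, IntermediateField.adjoin_le_iff, Set.singleton_subset_iff]
    have h4 : θ = algebraMap K k (algebraMap (A n) K y)⁻¹ * θ₀ := by
      rw [hθ₀, Algebra.smul_def, IsScalarTower.algebraMap_apply (A n) K k, map_inv₀, ← mul_assoc,
        inv_mul_cancel₀ ((_root_.map_ne_zero _).2 hyK), one_mul]
    have h5 : algebraMap K k (algebraMap (A n) K y)⁻¹ * θ₀ ∈ IntermediateField.adjoin K {θ₀} :=
      mul_mem (IntermediateField.algebraMap_mem _ _) (IntermediateField.mem_adjoin_simple_self K θ₀)
    rw [SetLike.mem_coe]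
    rw [← h4] at h5
    exact h5
  have hinj : Function.Injective (evt (Rat.castHom k) t) := by
    intro P Q hPQ
    apply IsFractionRing.injective (A n) K
    apply (algebraMap K k).injective
    rw [ht, ht]
    exact hPQ
  haveI : FaithfulSMul (A n) k := (faithfulSMul_iff_algebraMap_injective (A n) k).2 hinj
  refine ⟨θ₀, minpoly (A n) θ₀, hinj, minpoly.monic hy, minpoly.aeval (A n) θ₀, fun P hP => ?_,
    fun c => ?_⟩
  · exact minpoly.isIntegrallyClosed_dvd hy hP
  · have hc : c ∈ IntermediateField.adjoin K {θ₀} := by
      rw [hgen]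
      exact IntermediateField.mem_top
    rw [← IntermediateField.mem_toSubalgebra,
      IntermediateField.adjoin_simple_toSubalgebra_of_isAlgebraic
        (Algebra.IsAlgebraic.isAlgebraic θ₀), Algebra.adjoin_singleton_eq_range_aeval] at hc
    obtain ⟨q, hq⟩ := hc
    obtain ⟨b, hb, hb2⟩ := IsLocalization.integerNormalization_spec (nonZeroDivisors (A n)) q
    have hb0 : b ≠ 0 := nonZeroDivisors.ne_zero hb
    refine ⟨IsLocalization.integerNormalization (nonZeroDivisors (A n)) q, b, hb0, ?_⟩
    have h6 := congrArg (aeval θ₀) hb2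
    rw [aeval_map_algebraMap] at h6
    change ev (Rat.castHom k) t θ₀ _ = _ at h6
    rw [h6, eq_div_iff (by
      intro h
      apply hb0
      apply hinj
      rw [h, map_zero])]
    have h7 : (aeval θ₀) (b • q) = algebraMap (A n) k b * aeval θ₀ q := by
      rw [← algebraMap_smul K b q, map_smul, Algebra.smul_def, ← IsScalarTower.algebraMap_apply]
    rw [h7, mul_comm]
    congr 1
    exact hq.symm

end Pool.Agent.Zk80.HT
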