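import Mathlib
import Pool.Agent.Zk80.HT.PresK
import Pool.Agent.Zk80.HT.HitB

/-!
# Project HT+, part OH: Hilbert irreducibility over finitely generated fields
-/

set_option autoImplicit false
set_option linter.all false

open Polynomial

namespace Pool.Agent.Zk80.HT

/-- scaling the roots of a product -/
theorem prod_scale {B : Type} [Field B] (T : Finset B) (s : B) :
    ∏ θ ∈ T, (X - C (s * θ)) = scaleRoots (∏ θ ∈ T, (X - C θ)) s := by
  classical
  induction T using Finset.induction_on with
  | empty =>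
    rw [Finset.prod_empty, Finset.prod_empty]
    exact (one_scaleRoots s).symm
  | insert θ0 T h0 ih =>
    rw [Finset.prod_insert h0, Finset.prod_insert h0, mul_scaleRoots_of_noZeroDivisors, ih]
    congr 1
    rw [X_sub_C_scaleRoots, mul_comm]

/-- the polynomial of a stable finite set, up to a denominator -/
theorem exists_f (n : ℕ) (k B : Type) [Field k] [CharZero k] [Field B] [Algebra k B]
    [IsAlgClosure k B] (t : Fin n → k) (θ₀ : k) (m : (A n)[X])
    (hP : Pres (Rat.castHom k) t θ₀ m) (T : Finset B) (hT : ∀ σ : B ≃ₐ[k] B, ∀ θ ∈ T, σ θ ∈ T)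
    (D₂ : A n) (hD₂ : D₂ ≠ 0) :
    ∃ (D : A n) (f : (A n)[X][X]), D ≠ 0 ∧ D₂ ∣ D ∧ f.Monic ∧
      f.map ((algebraMap k B).comp (ev (Rat.castHom k) t θ₀)) =
        ∏ θ ∈ T, (X - C (algebraMap k B (evt (Rat.castHom k) t D) * θ)) := by
  classical
  haveI : Algebra.IsAlgebraic k B := IsAlgClosure.isAlgebraic
  haveI : IsAlgClosed B := IsAlgClosure.isAlgClosed k
  haveI : Normal k B := IsAlgClosure.normal k B
  haveI : IsGalois k B := { }
  set q : Polynomial B := ∏ θ ∈ T, (X - C θ) with hq
  have hqm : q.Monic := monic_prod_of_monic _ _ fun θ _ => monic_X_sub_C _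
  have hqk : ∀ i, ∃ c : k, algebraMap k B c = q.coeff i := by
    intro i
    have h1 : q.coeff i ∈ (⊥ : IntermediateField k B) := by
      rw [InfiniteGalois.mem_bot_iff_fixed]
      intro σ
      have h2 : q.map (σ : B →+* B) = q := by
        rw [hq, Polynomial.map_prod]
        refine Finset.prod_bij (fun θ _ => σ θ) (fun θ hθ => hT σ θ hθ)
          (fun a _ b _ h => σ.injective h) (fun θ hθ => ⟨σ.symm θ, ?_, σ.apply_symm_apply θ⟩)
          (fun θ hθ => ?_)
        · have := hT σ⁻¹ θ hθ
          exact this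
        · rw [Polynomial.map_sub, map_X, map_C]
          rfl
      have h3 := congrArg (fun f => coeff f i) h2
      simp only [coeff_map] at h3
      exact h3
    obtain ⟨c, hc⟩ := IntermediateField.mem_bot.1 h1
    exact ⟨c, hc⟩
  choose c hc using hqk
  choose P Q hQ hPQ using fun i => hP.quot (c i)
  have hQt : ∀ i, evt (Rat.castHom k) t (Q i) ≠ 0 := fun i h =>
    hQ i (hP.inj (by rw [h, map_zero]))
  set D : A n := (∏ i ∈ Finset.range q.natDegree, Q i) * D₂ with hD
  have hD0 : D ≠ 0 := mul_ne_zero (Finset.prod_ne_zero_iff.2 fun i _ => hQ i) hD₂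
  set s : B := algebraMap k B (evt (Rat.castHom k) t D) with hs
  have hl : scaleRoots q s ∈ lifts ((algebraMap k B).comp (ev (Rat.castHom k) t θ₀)) := by
    rw [lifts_iff_coeff_lifts]
    intro i
    rw [coeff_scaleRoots]
    rcases lt_trichotomy i q.natDegree with hi | hi | hi
    · -- `c_i D` is in the range
      have hdvd : Q i ∣ D := (Finset.dvd_prod_of_mem _ (Finset.mem_range.2 hi)).mul_right _
      obtain ⟨D', hD'⟩ := hdvd
      refine ⟨P i * C D' * C D ^ (q.natDegree - i - 1), ?_⟩
      have h1 : ∀ a : A n, ev (Rat.castHom k) t θ₀ (C a) = evt (Rat.castHom k) t a := by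
        intro a
        simp [ev]
      have e1 : ev (Rat.castHom k) t θ₀ (P i * C D' * C D ^ (q.natDegree - i - 1)) =
          ev (Rat.castHom k) t θ₀ (P i) * evt (Rat.castHom k) t D' *
            evt (Rat.castHom k) t D ^ (q.natDegree - i - 1) := by
        rw [map_mul, map_mul, map_pow, h1, h1]
      rw [RingHom.comp_apply, e1, ← hc i, hPQ i, hs, ← map_pow (algebraMap k B),
        ← map_mul (algebraMap k B)]
      congr 1
      have h2 : evt (Rat.castHom k) t D = evt (Rat.castHom k) t (Q i) * evt (Rat.castHom k) t D' := by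
        rw [← map_mul, ← hD']
      have h3 : evt (Rat.castHom k) t D ^ (q.natDegree - i) =
          evt (Rat.castHom k) t D ^ (q.natDegree - i - 1) * evt (Rat.castHom k) t D := by
        rw [← pow_succ]
        congr 1
        omega
      rw [h3]
      have h4 := hQt i
      have h5 : ev (Rat.castHom k) t θ₀ (P i) / evt (Rat.castHom k) t (Q i) *
          (evt (Rat.castHom k) t D ^ (q.natDegree - i - 1) * evt (Rat.castHom k) t D) =
          ev (Rat.castHom k) t θ₀ (P i) / evt (Rat.castHom k) t (Q i) *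
          (evt (Rat.castHom k) t D ^ (q.natDegree - i - 1) *
            (evt (Rat.castHom k) t (Q i) * evt (Rat.castHom k) t D')) := by
        rw [← h2]
      rw [h5, div_mul_eq_mul_div, eq_div_iff h4]
      ring
    · rw [hi, hqm.coeff_natDegree, Nat.sub_self, pow_zero, mul_one]
      exact ⟨1, map_one _⟩
    · rw [coeff_eq_zero_of_natDegree_lt hi, zero_mul]
      exact ⟨0, map_zero _⟩
  obtain ⟨f, hf1, -, hf2⟩ := lifts_and_natDegree_eq_and_monic hl ((monic_scaleRoots_iff s).2 hqm)
  refine ⟨D, f, hD0, ⟨_, mul_comm _ _⟩, hf2, ?_⟩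
  rw [hf1, prod_scale]

/-- **part OH** -/
theorem hilb : S_HILB := by
  classical
  intro k B _ _ _ _ _ hfg T hT hne
  obtain ⟨n, t, K, _, _, _, _, _, hfin, ht⟩ := exists_base k hfg
  obtain ⟨θ₀, m, hP⟩ := exists_pres n k K t ht
  haveI : Algebra.IsAlgebraic k B := IsAlgClosure.isAlgebraic
  haveI : IsAlgClosed B := IsAlgClosure.isAlgClosed k
  letI a1 : Algebra (A n) k := (evt (Rat.castHom k) t).toAlgebra
  haveI s1 : IsScalarTower (A n) K k := IsScalarTower.of_algebraMap_eq fun P => (ht P).symm
  letI a2 : Algebra K B := ((algebraMap k B).comp (algebraMap K k)).toAlgebra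
  haveI s2 : IsScalarTower K k B := IsScalarTower.of_algebraMap_eq fun P => rfl
  letI a3 : Algebra (A n) B := ((algebraMap k B).comp (evt (Rat.castHom k) t)).toAlgebra
  haveI s3 : IsScalarTower (A n) k B := IsScalarTower.of_algebraMap_eq fun P => rfl
  haveI s4 : IsScalarTower (A n) K B := IsScalarTower.of_algebraMap_eq fun P => by
    change algebraMap k B (evt (Rat.castHom k) t P) =
      algebraMap k B (algebraMap K k (algebraMap (A n) K P))
    rw [ht]
  haveI : Algebra.IsAlgebraic K B := Algebra.IsAlgebraic.trans K k B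
  haveI : IsAlgClosure K B := ⟨inferInstance, inferInstance⟩
  haveI halgQ : Algebra.IsAlgebraic ℚ (AlgebraicClosure ℚ) := by
    have h0 : (DivisionRing.toRatAlgebra : Algebra ℚ (AlgebraicClosure ℚ)) =
        AlgebraicClosure.instAlgebra ℚ := Subsingleton.elim _ _
    rw [h0]
    exact AlgebraicClosure.isAlgebraic ℚ
  -- a denominator
  have hden : ∀ S : Finset B, ∃ D : A n, D ≠ 0 ∧
      ∀ θ ∈ S, IsIntegral (A n) (algebraMap (A n) B D * θ) := by
    intro S
    induction S using Finset.induction_on with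
    | empty => exact ⟨1, one_ne_zero, fun θ hθ => absurd hθ (Finset.notMem_empty θ)⟩
    | insert θ0 S h0 ih =>
      obtain ⟨D, hD, h⟩ := ih
      have h1 : IsAlgebraic (A n) θ0 :=
        (IsFractionRing.isAlgebraic_iff (A n) K B).2 (Algebra.IsAlgebraic.isAlgebraic θ0)
      obtain ⟨y, hy0, hy⟩ := h1.exists_integral_multiple
      rw [Algebra.smul_def] at hy
      refine ⟨D * y, mul_ne_zero hD hy0, fun θ hθ => ?_⟩
      rcases Finset.mem_insert.1 hθ with rfl | hθ
      · rw [map_mul, mul_assoc]
        exact isIntegral_algebraMap.mul hy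
      · rw [map_mul, mul_comm (algebraMap _ B D), mul_assoc]
        exact isIntegral_algebraMap.mul (h θ hθ)
  obtain ⟨D₂, hD₂, hint₂⟩ := hden T
  obtain ⟨D, f, hD, ⟨D₁, hD₁⟩, hfm, hf⟩ := exists_f n k B t θ₀ m hP T hT D₂ hD₂
  have hDalg : algebraMap k B (evt (Rat.castHom k) t D) = algebraMap (A n) B D := rfl
  have hDB : algebraMap (A n) B D ≠ 0 := by
    rw [← hDalg]
    exact (_root_.map_ne_zero _).2 fun h => hD (hP.inj (by rw [h, map_zero]))
  have hint : ∀ θ ∈ T, IsIntegral (A n) (algebraMap (A n) B D * θ) := by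
    intro θ hθ
    rw [hD₁, mul_comm D₂ D₁, map_mul, mul_assoc]
    exact isIntegral_algebraMap.mul (hint₂ θ hθ)
  have hθint : IsIntegral (A n) θ₀ := ⟨m, hP.monic, hP.root⟩
  have hθB : IsIntegral (A n) (algebraMap k B θ₀) := hθint.map (IsScalarTower.toAlgHom (A n) k B)
  have hev : ∀ P : (A n)[X], aeval (algebraMap k B θ₀) P = algebraMap k B (ev (Rat.castHom k) t θ₀ P) := by
    intro P
    rw [aeval_algebraMap_apply]
    rfl
  have hevint : ∀ P : (A n)[X], IsIntegral (A n) (algebraMap k B (ev (Rat.castHom k) t θ₀ P)) := by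
    intro P
    rw [← hev]
    exact (adjoin_le_integralClosure hθB
      (aeval_mem_adjoin_singleton (A n) (algebraMap k B θ₀)))
  -- the derivative
  have hder : ev (Rat.castHom k) t θ₀ (derivative m) ≠ 0 := by
    intro h
    have h1 := hP.dvd _ h
    have hm0 : 0 < m.natDegree := by
      rw [Nat.pos_iff_ne_zero]
      intro h0
      have h2 : m = 1 := hP.monic.natDegree_eq_zero.1 h0
      have h3 := hP.root
      rw [h2, map_one] at h3
      exact one_ne_zero h3
    have h2 : (derivative m) ≠ 0 := by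
      intro h3
      have h4 := natDegree_eq_zero_of_derivative_eq_zero h3
      omega
    have h3 := natDegree_le_of_dvd h1 h2
    have h4 := natDegree_derivative_lt hm0.ne'
    omega
  -- the automorphisms
  have hσ : ∀ θ : B, ∃ σ : B ≃ₐ[k] B, θ ∈ T → σ θ ≠ θ := by
    intro θ
    by_cases h : θ ∈ T
    · obtain ⟨σ, hσ⟩ := hne θ h
      exact ⟨σ, fun _ => hσ⟩
    · exact ⟨1, fun h' => absurd h' h⟩
  choose σ hσ using hσ
  let S : Finset B := {algebraMap k B θ₀, algebraMap k B (ev (Rat.castHom k) t θ₀ (derivative m))} ∪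
    T.image (fun θ => algebraMap (A n) B D * θ) ∪
    T.image (fun θ => algebraMap (A n) B D * θ - algebraMap (A n) B D * σ θ θ)
  have hS : ∀ x ∈ S, IsIntegral (A n) x := by
    intro x hx
    simp only [S, Finset.mem_union, Finset.mem_insert, Finset.mem_singleton, Finset.mem_image] at hx
    rcases hx with ((rfl | rfl) | ⟨θ, hθ, rfl⟩) | ⟨θ, hθ, rfl⟩
    · exact hθB
    · exact hevint _
    · exact hint θ hθ
    · exact (hint θ hθ).sub (hint _ (hT _ θ hθ))
  obtain ⟨φ, O, ψ, hSO, hψ, hS0, hst⟩ := hit_B n K B S hS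
  have hmem0 : algebraMap k B θ₀ ∈ O := hSO _ (by simp [S])
  let θO : O := ⟨algebraMap k B θ₀, hmem0⟩
  let a : Fin n → ℚ := fun i => φ (MvPolynomial.X i)
  let θa : AlgebraicClosure ℚ := ψ θO
  have hevt : (algebraMap ℚ (AlgebraicClosure ℚ)).comp φ =
      evt (Rat.castHom _) (fun i => (a i : AlgebraicClosure ℚ)) := by
    apply MvPolynomial.ringHom_ext
    · intro r
      exact RingHom.congr_fun (Subsingleton.elim (((algebraMap ℚ (AlgebraicClosure ℚ)).comp φ).comp
        MvPolynomial.C) ((evt (Rat.castHom _) (fun i => (a i : AlgebraicClosure ℚ))).comp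
        MvPolynomial.C)) r
    · intro i
      simp [evt, a]
  -- evaluation in `O`
  have hevO : ev (Rat.castHom _) (fun i => (a i : AlgebraicClosure ℚ)) θa =
      ψ.comp (eval₂RingHom (algebraMap (A n) O) θO) := by
    apply Polynomial.ringHom_ext
    · intro P
      rw [RingHom.comp_apply, coe_eval₂RingHom, eval₂_C, hψ]
      simp only [ev, coe_eval₂RingHom, eval₂_C]
      rw [← hevt]
      rfl
    · simp [ev, θa]
  have hOB : ∀ P : (A n)[X], ((eval₂RingHom (algebraMap (A n) O) θO P : O) : B) =
      algebraMap k B (ev (Rat.castHom k) t θ₀ P) := by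
    intro P
    rw [← hev, coe_eval₂RingHom, aeval_def]
    have h1 := hom_eval₂ P (algebraMap (A n) O) (algebraMap O B) θO
    exact h1
  refine ⟨n, t, θ₀, m, D, f, a, θa, hP, hD, hfm, hf, ?_, ?_, ?_⟩
  · rw [hevO, RingHom.comp_apply]
    have h1 : eval₂RingHom (algebraMap (A n) O) θO m = 0 := by
      apply Subtype.ext
      rw [hOB, hP.root, map_zero]
      rfl
    rw [h1, map_zero]
  · rw [hevO, RingHom.comp_apply]
    apply hS0
    · rw [hOB]
      simp [S]
    · rw [hOB]
      exact (_root_.map_ne_zero _).2 hder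
  · intro y hy h0
    -- the roots come from `T`
    have hfO : f.map (eval₂RingHom (algebraMap (A n) O) θO) =
        ∏ θ ∈ T.attach, (X - C (⟨algebraMap (A n) B D * θ.1, hSO _ (by
          simp only [S, Finset.mem_union, Finset.mem_image]
          exact Or.inl (Or.inr ⟨θ.1, θ.2, rfl⟩))⟩ : O)) := by
      apply Polynomial.map_injective (algebraMap O B) Subtype.val_injective
      rw [Polynomial.map_map]
      have h1 : (algebraMap O B).comp (eval₂RingHom (algebraMap (A n) O) θO) =
          (algebraMap k B).comp (ev (Rat.castHom k) t θ₀) := by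
        refine RingHom.ext fun P => ?_
        exact hOB P
      rw [h1, hf, Polynomial.map_prod, ← Finset.prod_attach T]
      refine Finset.prod_congr rfl fun θ _ => ?_
      rw [Polynomial.map_sub, map_X, map_C]
      rfl
    rw [hevO, ← Polynomial.map_map, hfO, Polynomial.map_prod, eval_prod, Finset.prod_eq_zero_iff] at h0
    obtain ⟨⟨θ, hθ⟩, -, h1⟩ := h0
    rw [Polynomial.map_sub, map_X, map_C, eval_sub, eval_X, eval_C, sub_eq_zero] at h1
    -- `y` is a polynomial in `θa`
    rw [← IntermediateField.mem_toSubalgebra,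
      IntermediateField.adjoin_simple_toSubalgebra_of_isAlgebraic
        (Algebra.IsAlgebraic.isAlgebraic θa), Algebra.adjoin_singleton_eq_range_aeval] at hy
    obtain ⟨q, hq⟩ := hy
    have hq' : (aeval θa) q = y := hq
    set Pq : (A n)[X] := q.map (algebraMap ℚ (A n)) with hPq
    have h2 : ψ (eval₂RingHom (algebraMap (A n) O) θO Pq) = y := by
      rw [← RingHom.comp_apply, ← hevO, ← hq', hPq]
      simp only [ev, coe_eval₂RingHom]
      rw [eval₂_map, aeval_def]
      congr 1
      exact Subsingleton.elim _ _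
    set z : O := ⟨algebraMap (A n) B D * θ, hSO _ (by
          simp only [S, Finset.mem_union, Finset.mem_image]
          exact Or.inl (Or.inr ⟨θ, hθ, rfl⟩))⟩ with hz
    set w : O := eval₂RingHom (algebraMap (A n) O) θO Pq with hw
    have h3 : ψ (z - w) = 0 := by rw [map_sub, h2, ← h1, sub_self]
    obtain ⟨u, hu, hu0⟩ := hst ((σ θ).restrictScalars K) (z - w)
    have h4 := hu0 h3
    set z' : O := ⟨algebraMap (A n) B D * σ θ θ, hSO _ (by
          simp only [S, Finset.mem_union, Finset.mem_image]
          exact Or.inl (Or.inr ⟨σ θ θ, hT _ θ hθ, rfl⟩))⟩ with hz'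
    have h5 : u = z' - w := by
      apply Subtype.ext
      rw [hu]
      change (σ θ) ((z : B) - (w : B)) = (z' : B) - (w : B)
      rw [map_sub]
      have h6 : (σ θ) (w : B) = w := by
        rw [hw, hOB, (σ θ).commutes]
      have h7 : (σ θ) (z : B) = z' := by
        change (σ θ) (algebraMap (A n) B D * θ) = algebraMap (A n) B D * σ θ θ
        rw [map_mul, ← hDalg, (σ θ).commutes]
      rw [h6, h7]
    have h8 : ψ (z - z') = 0 := by
      have h9 : z - z' = (z - w) - u := by rw [h5]; ring
      rw [h9, map_sub, h3, h4, sub_zero]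
    refine hS0 (z - z') ?_ ?_ h8
    · change algebraMap (A n) B D * θ - algebraMap (A n) B D * σ θ θ ∈ S
      simp only [S, Finset.mem_union, Finset.mem_image]
      exact Or.inr ⟨θ, hθ, rfl⟩
    · change algebraMap (A n) B D * θ - algebraMap (A n) B D * σ θ θ ≠ 0
      rw [← mul_sub]
      exact mul_ne_zero hDB (sub_ne_zero.2 (hσ θ hθ).symm)

end Pool.Agent.Zk80.HT
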