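import Mathlib
import Pool.Agent.Zk80.HT.Hilb
import Pool.Agent.Zk81.HT.DivK
import Pool.Agent.Zk47.HT.Near
import Pool.Agent.Zk17.HT.App
import Pool.Agent.Zk95.HT.Glue

/-!
# Project HT+, part O: the obstruction over finitely generated fields
-/

set_option autoImplicit false

namespace Pool.Agent.Zk80.HT

/-- **part O** -/
theorem obsF : Pool.Agent.Zk12.HT.S_OBSF :=
  Pool.Agent.Zk95.HT.glue hilb Pool.Agent.Zk81.HT.embK Pool.Agent.Zk81.HT.divK
    (Pool.Agent.Zk17.HT.appk Pool.Agent.Zk47.HT.neark) Pool.Agent.Zk95.HT.prop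

end Pool.Agent.Zk80.HT
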